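import Pool.Agent.W498.Num.Main

/-!
# Homological and numerical equivalence on the generic fibre

Let `f : Y ⟶ S` be a morphism of smooth projective varieties over an algebraically closed field `k`
of any characteristic, and `i : P ⟶ Y` the inclusion of the fibre over a closed point over which
`f` is smooth. Let `W` be a Weil cohomology theory for which the decomposition theorem and the
relative hard Lefschetz theorem hold for `f` (in the `ℓ`-adic theory: Beilinson, Bernstein, Deligne,
Gabber).

1. Suppose that homological and numerical equivalence coincide for the cycles of codimension
   `q + dim S` on `Y`. Then they coincide for the cycles of codimension `q` on the generic fibre of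
   `f`, a variety over the function field of `S`.
2. Suppose that homological and numerical equivalence coincide on `Y` in all codimensions. Then they
   coincide for the cycles on the closed fibre `P` whose class is in the fixed part, the image of
   `H(Y)` in `H(P)` (in the `ℓ`-adic theory: the classes invariant under the monodromy), and these
   classes are `K`-combinations of restrictions of classes of cycles on `Y`.

In both cases it is enough to test numerical triviality on restrictions of cycles on `Y`. The first
part reduces the question for varieties over a function field over `k`, in any characteristic, to
varieties over the algebraically closed field `k`. No positivity is used.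

The proof of the first part: the restriction of `z` to `P` and its push-forward `z · [P]` to `Y`.
If the restriction of `z` to the generic fibre is numerically trivial, then so is `z · [P]`, hence it
is homologically trivial. So the class of the restriction of `z` to `P` is an element of the fixed
part which is orthogonal to the fixed part, and it is zero because the Poincaré duality pairing is
nondegenerate on the fixed part. For the second part, the conjecture D for `Y` implies the
conjecture A for `Y`, and so the algebraic classes in the fixed part are restrictions of algebraic
classes.
-/

open Pool.Agent.H914 Pool.Agent.H447 Pool.Agent.W498.Dom Pool.Agent.W498.Num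

open VarClass.Obj

universe u v

namespace Pool.Agent.Results.MP_0c8446_ag.GenericFibre

/-- **Homological and numerical equivalence on the generic fibre and on the fixed part of the closed
fibres.** -/
theorem result {k Ω : Type u} [Field k] [IsAlgClosed k] [Field Ω] [IsAlgClosed Ω] [Algebra k Ω]
    {𝒱 : VarClass k} {ops : CycleOps 𝒱} {𝒱' : VarClass Ω} {ops' : CycleOps 𝒱'}
    (W : WeilCohomology.{u, v} ops) (W' : WeilCohomology.{u, v} ops') (P Y S : 𝒱.Obj)
    (f : Y ⟶ S) (i : P ⟶ Y) (D : S.Cycles) (hD : S.IsCyc 1 D) (E : Y.Cycles) (hE : Y.IsCyc 1 E)
    (Q : PerverseDecomposition W f D E) (hi : IsSmoothFibre Q i) :
    (∀ q, HomEqNumIn W Y (q + S.dim) → HomEqNumRestricted W i q ∧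
      ∀ (X : 𝒱'.Obj) (R : GeometricGenericFibre W W' f i X), HomEqNumGeneric R q) ∧
    (HomEqNum W Y → ∀ q, HomEqNumFixed W i q ∧ FixedAreRestricted W i q) :=
  ⟨fun _ hq => ⟨restricted hD hE hi hq, fun _ R => generic hD hE hi hq R⟩,
    fun hY q => ⟨fixed hD hE hi hY q, fixed_restricted hD hE hi hY q⟩⟩

end Pool.Agent.Results.MP_0c8446_ag.GenericFibre
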