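import Pool.Agent.W547.UB.Tate

/-!
# Numerical and homological equivalence on ordinary abelian varieties in independent blocks

Let `A₀` be an ordinary abelian variety over the field with `q = p ^ a` elements, isogenous (after a
finite extension of the base field) to a product of any number of absolutely simple abelian varieties
`A₀ i` with complex multiplication by CM fields `E i` containing their Frobenius endomorphisms `π i`.
Its canonical lift is isogenous to the product `X` of the abelian varieties `A i` with complex
multiplication by `E i` and the CM types `Φ i` given by the embeddings `φ` for which `φ (π i)` has
slope one. 
The factors are divided into blocks (the block of the factor `A i` is `b i`), such that for each block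
there is an automorphism of the field of complex numbers that acts as the complex conjugation on all
embeddings of the CM fields in this block and trivially on all embeddings of the CM fields in the
other blocks (the intersection of the Galois closure of the fields of the block with the compositum of
the Galois closures of the other fields is totally real; for one block this is no condition). Each
block is of one of the following kinds:

* its factors have dimension at most three, and any two of them whose CM fields have the same Galois
  closure over `ℚ` have isomorphic CM types, unless these CM fields are Galois over `ℚ`;
* its factors are factors (up to isogeny) of one abelian variety of CM type of dimension at most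
  five, each with any multiplicity;
* its factors have the same CM type, with a CM field of degree at most fourteen;
* its factors are factors (up to isogeny) of one nondegenerate abelian variety of CM type, of
  arbitrary dimension, each with any multiplicity.

For example `X` may be any power of any abelian variety of CM type of dimension at most five, or any
power of a simple abelian variety of CM type of dimension at most seven, or a product of such powers
for which the Galois closures of the CM fields are linearly disjoint. The conditions hold for all
powers of `X` if they hold for `X`.

Let `z ∈ H^{2r}(A₀, K)` be a class (an alternating form in `2 r` variables on the rational Tate module
`V = K ⊗ H_1(X, ℚ)` of `A₀`; `K` is a field of characteristic `0`, for instance `ℚ_ℓ` or an algebraic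
closure of it, or the field of complex numbers as an extension of the field of coefficients of the
crystalline cohomology) with the following two properties:

* it is a Tate class over some finite extension of the base field: the `s`-th power of the Frobenius
  endomorphism multiplies it by `q ^ {r s}` for some `s > 0`; every linear combination, with
  coefficients in `K`, of classes of algebraic cycles (defined over an algebraic closure) has
  this property;
* its cup product with every class of complementary degree in the ring generated by the classes of
  divisors on `X` and by the pull-backs, along homomorphisms `X → Y`, of the Weil classes of
  imaginary quadratic fields on abelian fourfolds and sixfolds `Y` of CM type and of split Weil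
  type is zero. (The classes in this ring are algebraic by theorems of Markman; so
  every numerically trivial class has this property.)

Then `z = 0`. So numerical and homological equivalence coincide for `A₀`, for every `ℓ ≠ p` and for
crystalline cohomology, and also after extension of the coefficients of the cycles to `K`.
-/

namespace Pool.Agent.Results.MP_0c8446_ag.OrdinaryIndependentBlocks

open Module Pool.Agent.W547.KB Pool.Agent.W547.LD Pool.Agent.W530.NF Pool.Agent.W547.LN
open Pool.Agent.W547.DP Pool.Agent.W547.UB

/-- `X` is the canonical lift of `A₀`, in independent blocks, `V` is the rational Tate module of `A₀`
(or the dual of the first crystalline cohomology group), `F` the Frobenius endomorphism, `z` a Tate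
class over the extension of degree `s` which is orthogonal to the ring generated by divisors and
split Weil classes. -/
theorem result (p : ℕ) [Fact p.Prime] (a : ℕ) (ha : 0 < a) (ν : PadicAlgCl p ≃+* ℂ)
    (X : CMAV) {J : Type} (b : X.I → J) (hX : IndependentBlocks X b)
    (π : X.H1) (hπ : IsCanonicalLift p a ν X π)
    {K V : Type} [Field K] [CharZero K] [AddCommGroup V] [Module K V]
    (C : Comparison X K V) (F : V →ₗ[K] V) (hF : IsFrobeniusMap C π F)
    {r s : ℕ} (hs : 0 < s) (z : V [⋀^Fin (2 * r)]→ₗ[K] K)
    (htate : IsTateClassOver F (p ^ a) s z) (horth : IsOrthogonal C z) : z = 0 :=
  conjD X b hX p a ha ν π hπ C F hF hs z htate horth

end Pool.Agent.Results.MP_0c8446_ag.OrdinaryIndependentBlocks
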