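import Pool.Agent.H281R3.HT.FMain

open CategoryTheory AlgebraicGeometry

universe u v w

namespace Pool.Agent.Results.MP_0c8446_ag.ProductsMultiplicityFree

open Pool.Agent.H914 Pool.Agent.H914.VarClass Pool.Agent.H914.VarClass.Obj
  Pool.Agent.H281R3.HT

/-- **The conjecture `D` for products of multiplicity-free varieties**: let the transcendental
cohomology of each `P i` be multiplicity free for the algebraic correspondences of degree `0` (its
commutant is commutative), each of its nonzero stable subspaces pairing non-trivially with its
conjugate by some algebraic correspondence. Then homological and numerical equivalence coincide on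
all the `P i` if and only if they coincide, and the conjecture `B` holds, on all varieties dominated
by products of the `P i`. -/
theorem result {k : Type u} [Field k] {𝒱 : VarClass k} {ops : CycleOps 𝒱}
    (W : WeilCohomology.{u, v} ops) [IsAlgClosed W.K] (S : Conjugation W)
    {ι : Type w} (P : ι → 𝒱.Obj) (hC : ∀ i, CommutativeCommutant W (P i))
    (hH : ∀ i, PairsWithConjugate S (P i)) :
    (∀ i, HomEqNum W (P i)) ↔
      ∀ Q, IsProductOf (Set.range P) Q → ∀ Y, Dominates W Q Y → HomEqNum W Y ∧
        ∀ D, Y.IsCyc 1 D → HardLefschetz W Y D → LefschetzB W Y D :=
  products_iff S P hC hH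

end Pool.Agent.Results.MP_0c8446_ag.ProductsMultiplicityFree
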