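import Pool.Agent.H281R3.HT.BMain
import Pool.Agent.H281R3.HT.AMain

open CategoryTheory AlgebraicGeometry

universe u v w

namespace Pool.Agent.Results.MP_0c8446_ag.SimpleSpectrumProducts

open Pool.Agent.H914 Pool.Agent.H914.VarClass Pool.Agent.H914.VarClass.Obj
  Pool.Agent.H281R3.HT

variable {k : Type u} [Field k] {𝒱 : VarClass k} {ops : CycleOps 𝒱}

/-- The class of the divisor `D` satisfies hard Lefschetz, and a commutative group of automorphisms
of `X` of finite exponent fixing this class has simple spectrum on `H^(2j)(X)` for all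
`2 j ≤ dim X`. -/
def SimpleInEvenDegrees {W : WeilCohomology.{u, v} ops} (S : Conjugation W) (X : 𝒱.Obj)
    (D : X.Cycles) : Prop :=
  ∃ A : PolarizedAction S X D, ∀ j, 2 * j ≤ X.dim → SimpleSpectrumOn (W.gr X (2 * j)) A.rho

/-- The variety `X` has a divisor `D` with hard Lefschetz such that either `X` is a surface (or a
curve, or a point) and hom = num holds for divisors (Matsusaka's theorem), or the conjecture `A`
holds for `D` and a commutative group as in `SimpleInEvenDegrees` acts. -/
def Tractable {W : WeilCohomology.{u, v} ops} (S : Conjugation W) (X : 𝒱.Obj) : Prop :=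
  ∃ D : X.Cycles, X.IsCyc 1 D ∧ HardLefschetz W X D ∧
    ((X.dim ≤ 2 ∧ Pool.Agent.H447.HomEqNumIn W X 1) ∨
      (LefschetzA W X D ∧ SimpleInEvenDegrees S X D))

lemma homEqNum {W : WeilCohomology.{u, v} ops} [IsAlgClosed W.K] {S : Conjugation W} {X : 𝒱.Obj}
    (h : Tractable S X) : HomEqNum W X := by
  obtain ⟨D, hD, hHL, h | h⟩ := h
  · exact homEqNum_surface h.1 hD hHL h.2
  · obtain ⟨hA, A, hM⟩ := h
    intro j hj z hz hnum
    by_cases h2 : 2 * j ≤ X.dim
    · exact A.cl_eq_zero hD hHL h2 (hM j h2) ⟨hz, hnum⟩
    · have h3 : 2 * (X.dim - j) ≤ X.dim := by omega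
      have h4 : X.dim - (X.dim - j) = j := by omega
      refine cl_eq_zero_dual hD h3 hA (fun _ hz' => A.cl_eq_zero hD hHL h3 (hM _ h3) hz') ?_
      rw [h4]
      exact ⟨hz, hnum⟩

/-- **The conjectures `D` and `B` for products of varieties with commutative groups of
automorphisms**: let each `P i` have a commutative group of automorphisms of finite exponent with
simple spectrum on the transcendental cohomology, and be tractable (a surface, or a variety with
conjecture `A` and a group with simple spectrum on the cohomology of even degrees up to the middle).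
Then homological and numerical equivalence coincide for every variety `Y` dominated by a product of
the `P i`, and the conjecture `B` holds for `Y`. -/
theorem result (W : WeilCohomology.{u, v} ops) [IsAlgClosed W.K] (S : Conjugation W)
    {ι : Type w} (P : ι → 𝒱.Obj) (hA : ∀ i, Nonempty (AbelianAction S (P i)))
    (hT : ∀ i, Tractable S (P i)) :
    ∀ Q, IsProductOf (Set.range P) Q → ∀ Y, Dominates W Q Y → HomEqNum W Y ∧
      ∀ D, Y.IsCyc 1 D → HardLefschetz W Y D → LefschetzB W Y D :=
  (abelian_products S P hA).1 fun i => homEqNum (hT i)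

end Pool.Agent.Results.MP_0c8446_ag.SimpleSpectrumProducts
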